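import Pool.Agent.helper66.FB.Spec2
import Pool.Agent.helper66.FB.KC
import Pool.Agent.helper52.FB.EC

/-!
Modules RV (reversal) and RE (energy of the range) of part B.
-/

set_option autoImplicit false

open scoped BigOperators Topology
open Filter MeasureTheory

namespace Pool.Agent.helper66.FB

open Finset
open Pool.Agent.helper20.HP

section

set_option linter.unusedSectionVars false

variable {V : Type} [Fintype V] [DecidableEq V]

/-- the event that the word `m`, read backwards, starts in `D` and avoids `D` afterwards -/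
def RV_ev (D : Finset V) (m : List V) : Prop :=
  ∃ y l, m = y :: l ∧ y ∈ D ∧ ∀ z ∈ l, z ∉ D

theorem RV_ev_cons (D : Finset V) (y : V) (l : List V) :
    RV_ev D (y :: l) ↔ y ∈ D ∧ ∀ z ∈ l, z ∉ D := by
  constructor
  · rintro ⟨y', l', h, hy, hl⟩
    rw [List.cons.injEq] at h
    obtain ⟨rfl, rfl⟩ := h
    exact ⟨hy, hl⟩
  · rintro ⟨hy, hl⟩
    exact ⟨y, l, rfl, hy, hl⟩

theorem RV_ev_snoc (D : Finset V) (x y : V) (l : List V) :
    RV_ev D (x :: y :: l).reverse ↔ x ∉ D ∧ RV_ev D (y :: l).reverse := by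
  rw [List.reverse_cons (a := x)]
  cases h : (y :: l).reverse with
  | nil => simp at h
  | cons w m =>
    rw [List.cons_append, RV_ev_cons, RV_ev_cons]
    constructor
    · rintro ⟨h1, h2⟩
      exact ⟨h2 x (by simp), h1, fun z hz => h2 z (List.mem_append_left _ hz)⟩
    · rintro ⟨h1, h2, h3⟩
      refine ⟨h2, fun z hz => ?_⟩
      rcases List.mem_append.mp hz with hz | hz
      · exact h3 z hz
      · rw [List.mem_singleton] at hz
        rw [hz]; exact h1

theorem RV_ev_single (D : Finset V) (x : V) : RV_ev D [x].reverse ↔ x ∈ D := by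
  rw [List.reverse_singleton, RV_ev_cons]
  simp

theorem RV_pt (K : HW V) (D : Finset V) (N : ℕ) : ∀ (x : V) (F F' : List V → ℝ),
    (∀ l, 0 ≤ F' l) → (∀ l₁ l₂ : List V, l₁ ≠ [] → F l₁.reverse ≤ F' (l₁ ++ l₂)) →
    ∑ t ∈ range (N + 1), W K t x (fun l => ind (RV_ev D (x :: l).reverse) * F (x :: l).reverse) ≤
      W K N x (fun l => F' (x :: l)) := by
  induction N with
  | zero =>
    intro x F F' h0 h1
    rw [zero_add, Finset.sum_range_one, W_zero, W_zero]
    have e := h1 [x] [] (by simp)
    rw [List.append_nil] at e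
    by_cases hx : RV_ev D [x].reverse
    · rw [ind_true hx, one_mul]; exact e
    · rw [ind_false hx, zero_mul]; exact h0 _
  | succ N ih =>
    intro x F F' h0 h1
    rw [Finset.sum_range_succ']
    have hstep : ∀ t, W K (t + 1) x
        (fun l => ind (RV_ev D (x :: l).reverse) * F (x :: l).reverse) =
        ind (x ∉ D) * ∑ y, K.p x y * W K t y
          (fun l => ind (RV_ev D (y :: l).reverse) * F ((y :: l).reverse ++ [x])) := by
      intro t
      rw [W_succ, Finset.mul_sum]
      refine Finset.sum_congr rfl (fun y _ => ?_)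
      rw [mul_left_comm]
      congr 1
      rw [← W_mul_left]
      refine W_congr K t y (fun l _ => ?_)
      rw [ind_congr (RV_ev_snoc D x y l), ind_and, List.reverse_cons (a := x), mul_assoc]
    simp only [hstep]
    rw [W_zero, ← Finset.mul_sum, Finset.sum_comm]
    simp only [← Finset.mul_sum]
    by_cases hx : x ∈ D
    · rw [ind_false (not_not.mpr hx), zero_mul, zero_add, ind_true ((RV_ev_single D x).mpr hx),
        one_mul]
      rw [← W_const K (N + 1) x (F [x].reverse)]
      exact W_mono K (N + 1) x (fun l _ => h1 [x] l (by simp))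
    · rw [ind_true hx, one_mul, ind_false (fun h => hx ((RV_ev_single D x).mp h)), zero_mul,
        add_zero, W_succ]
      refine Finset.sum_le_sum (fun y _ => mul_le_mul_of_nonneg_left ?_ (K.nonneg x y))
      refine ih y (fun m => F (m ++ [x])) (fun m => F' (x :: m)) (fun l => h0 _) ?_
      intro l₁ l₂ hl
      have e := h1 (x :: l₁) l₂ (by simp)
      rw [List.reverse_cons] at e
      exact e

end

theorem RV : RV_stmt := by
  intro V _ _ K D N F F' h0 h1
  have key : kws K D (N + 1) (fun y l => F (y :: l)) =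
      ∑ x, ∑ t ∈ range (N + 1), W K t x
        (fun l => ind (RV_ev D (x :: l).reverse) * F (x :: l).reverse) := by
    rw [Finset.sum_comm]
    unfold kws
    refine Finset.sum_congr rfl (fun t _ => ?_)
    have e1 := W_rev K t (fun m => ind (RV_ev D m) * F m)
    rw [← e1]
    unfold kw
    have h2 : ∑ y ∈ D, W K t y (fun l => ind (RV_ev D (y :: l)) * F (y :: l)) =
        ∑ y, W K t y (fun l => ind (RV_ev D (y :: l)) * F (y :: l)) := by
      refine Finset.sum_subset (Finset.subset_univ D) (fun y _ hy => ?_)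
      rw [← W_const K t y 0]
      refine W_congr K t y (fun l _ => ?_)
      rw [ind_false (fun h => hy ((RV_ev_cons D y l).mp h).1), zero_mul]
    rw [← h2]
    refine Finset.sum_congr rfl (fun y hy => ?_)
    refine W_congr K t y (fun l _ => ?_)
    congr 1
    refine ind_congr ?_
    rw [RV_ev_cons]
    exact ⟨fun h => ⟨hy, h⟩, fun h => h.2⟩
  rw [key]
  exact Finset.sum_le_sum (fun x _ => RV_pt K D N x F F' h0 h1)

theorem RE_cc_le {V : Type} [Fintype V] [DecidableEq V] {K : HW V} {θ : ℝ} {h : ℕ}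
    (hP : Par K θ h) (M T : ℕ) :
    ∑ s ∈ range M, ∑ u ∈ range (T + 1), cc K (s + u) ≤
      θ + M * (T + 1) * (3 / (2 * (Fintype.card V : ℝ))) := by
  set c : ℝ := 3 / (2 * (Fintype.card V : ℝ)) with hc
  have hc0 : 0 ≤ c := by positivity
  set L : ℕ := Nat.sqrt (Fintype.card V) + 1 with hL
  have hmix : ∀ t, L ≤ t → cc K t ≤ c := by
    intro t ht
    have hht : h ≤ t := by
      have := hP.h_le
      omega
    by_cases hV : Nonempty V
    · obtain ⟨x⟩ := hV
      rw [← cc_eq K t x]
      exact hP.mix t hht x x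
    · have : IsEmpty V := not_nonempty_iff.mp hV
      unfold cc
      simp [hc0]
  set g : ℕ → ℝ := fun s => ∑ v ∈ Finset.Ico s L, cc K v with hg
  have hg0 : ∀ s, 0 ≤ g s := fun s => Finset.sum_nonneg (fun v _ => cc_nonneg K v)
  have h1 : ∀ s, ∑ u ∈ range (T + 1), cc K (s + u) ≤ g s + (T + 1) * c := by
    intro s
    have e1 : ∑ u ∈ range (T + 1), cc K (s + u) ≤
        ∑ u ∈ range (T + 1), ((if s + u < L then cc K (s + u) else 0) + c) := by
      refine Finset.sum_le_sum (fun u _ => ?_)
      split_ifs with hu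
      · linarith
      · rw [zero_add]; exact hmix _ (not_lt.mp hu)
    refine e1.trans ?_
    rw [Finset.sum_add_distrib]
    have e2 : ∑ u ∈ range (T + 1), (if s + u < L then cc K (s + u) else 0) ≤ g s := by
      have e3 : ∑ u ∈ range (T + 1), (if s + u < L then cc K (s + u) else 0) =
          ∑ v ∈ Finset.Ico s (s + (T + 1)), (if v < L then cc K v else 0) := by
        rw [Finset.sum_Ico_eq_sum_range]
        congr 1
        congr 1
        omega
      rw [e3, ← Finset.sum_filter]
      refine Finset.sum_le_sum_of_subset_of_nonneg ?_ (fun v _ _ => cc_nonneg K v)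
      intro v hv
      rw [Finset.mem_filter, Finset.mem_Ico] at hv
      rw [Finset.mem_Ico]
      exact ⟨hv.1.1, hv.2⟩
    have e4 : ∑ _u ∈ range (T + 1), c = (T + 1) * c := by
      rw [Finset.sum_const, Finset.card_range, nsmul_eq_mul]
      push_cast
      ring
    linarith
  have h2 : ∑ s ∈ range M, g s ≤ θ := by
    have e1 : ∑ s ∈ range M, g s ≤ ∑ s ∈ range (max M L), g s :=
      Finset.sum_le_sum_of_subset_of_nonneg (Finset.range_mono (le_max_left _ _))
        (fun s _ _ => hg0 s)
    have e2 : ∑ s ∈ range L, g s = ∑ s ∈ range (max M L), g s := by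
      refine Finset.sum_subset (Finset.range_mono (le_max_right _ _)) (fun s _ hs => ?_)
      rw [Finset.mem_range, not_lt] at hs
      rw [hg]
      simp only
      rw [Finset.Ico_eq_empty (by omega), Finset.sum_empty]
    have e3 : ∑ s ∈ range L, g s = ∑ u ∈ range L, ((u : ℝ) + 1) * cc K u := by
      rw [hg, Finset.range_eq_Ico, Finset.sum_Ico_Ico_comm]
      refine Finset.sum_congr rfl (fun u _ => ?_)
      rw [Finset.sum_const, Nat.card_Ico, nsmul_eq_mul]
      push_cast
      simp
    rw [← e2, e3] at e1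
    exact e1.trans hP.green
  calc ∑ s ∈ range M, ∑ u ∈ range (T + 1), cc K (s + u)
      ≤ ∑ s ∈ range M, (g s + (T + 1) * c) := Finset.sum_le_sum (fun s _ => h1 s)
    _ = ∑ s ∈ range M, g s + M * (T + 1) * c := by
        rw [Finset.sum_add_distrib, Finset.sum_const, Finset.card_range, nsmul_eq_mul, mul_assoc]
    _ ≤ θ + M * (T + 1) * c := by linarith

theorem RE_one {V : Type} [Fintype V] [DecidableEq V] {K : HW V} {θ : ℝ} {h : ℕ}
    (hP : Par K θ h) (T N k : ℕ) (hk : k ≤ N) (y : V) :
    Gr K T y y + 2 * W K k y (EC_ls (Gr K T y)) ≤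
      2 * (θ + (N + 1) * (T + 1) * (3 / (2 * (Fintype.card V : ℝ)))) := by
  have e1 : Gr K T y y = ∑ u ∈ range (T + 1), cc K (0 + u) := by
    unfold Gr
    exact Finset.sum_congr rfl (fun u _ => by rw [zero_add, cc_eq])
  have e2 : W K k y (EC_ls (Gr K T y)) =
      ∑ s ∈ range k, ∑ u ∈ range (T + 1), cc K (s + 1 + u) := by
    rw [EC_W_ls]
    refine Finset.sum_congr rfl (fun s _ => ?_)
    unfold Gr
    simp only [Finset.mul_sum]
    rw [Finset.sum_comm]
    refine Finset.sum_congr rfl (fun u _ => ?_)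
    rw [← cc_eq K (s + 1 + u) y, pt_add]
    exact Finset.sum_congr rfl (fun z _ => by rw [pt_symm K u z y])
  have e3 := RE_cc_le hP (k + 1) T
  rw [Finset.sum_range_succ'] at e3
  have e4 : 0 ≤ Gr K T y y := EC_Gr_nonneg K T y y
  have e5 : ((k + 1 : ℕ) : ℝ) * (T + 1) * (3 / (2 * (Fintype.card V : ℝ))) ≤
      (N + 1) * (T + 1) * (3 / (2 * (Fintype.card V : ℝ))) := by
    have : ((k + 1 : ℕ) : ℝ) ≤ N + 1 := by
      push_cast
      have : (k : ℝ) ≤ N := by exact_mod_cast hk
      linarith
    gcongr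
  rw [e1] at e4 ⊢
  rw [e2]
  linarith

theorem RE_W_dl {V : Type} [Fintype V] [DecidableEq V] {K : HW V} {θ : ℝ} {h : ℕ}
    (hP : Par K θ h) (T N k : ℕ) (hk : k ≤ N) (x : V) :
    W K k x (fun l => EC_dl K T (x :: l)) ≤
      2 * (k + 1) * (θ + (N + 1) * (T + 1) * (3 / (2 * (Fintype.card V : ℝ)))) := by
  set c : ℝ := θ + (N + 1) * (T + 1) * (3 / (2 * (Fintype.card V : ℝ))) with hc
  have h1 : ∀ (k : ℕ) (y : V), W K k y (fun l => EC_dl K T (y :: l)) =
      Gr K T y y + 2 * W K k y (EC_ls (Gr K T y)) + W K k y (EC_dl K T) := by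
    intro k y
    have e : (fun l => EC_dl K T (y :: l)) =
        fun l => (Gr K T y y + 2 * EC_ls (Gr K T y) l) + EC_dl K T l := by
      funext l; rfl
    rw [e, W_add, W_add K k y (fun _ => Gr K T y y) (fun l => 2 * EC_ls (Gr K T y) l), W_const,
      W_mul_left]
  induction k generalizing x with
  | zero =>
    rw [h1, W_zero (f := EC_dl K T)]
    have e := RE_one hP T N 0 (Nat.zero_le _) x
    have e2 : EC_dl K T [] = 0 := rfl
    rw [e2]
    push_cast
    linarith
  | succ k ih =>
    rw [h1, W_succ (f := EC_dl K T)]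
    have e := RE_one hP T N (k + 1) hk x
    have e2 : ∑ y, K.p x y * W K k y (fun l => EC_dl K T (y :: l)) ≤ 2 * (k + 1) * c := by
      calc ∑ y, K.p x y * W K k y (fun l => EC_dl K T (y :: l))
          ≤ ∑ y, K.p x y * (2 * (k + 1) * c) :=
            Finset.sum_le_sum (fun y _ => mul_le_mul_of_nonneg_left (ih (by omega) y) (K.nonneg x y))
        _ = 2 * (k + 1) * c := by rw [← Finset.sum_mul, K.sum_one, one_mul]
    push_cast
    linarith

/-- RE from RV (no hypotheses) -/
theorem RE : RE_stmt := by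
  intro V _ _ K θ h hP D T N
  refine (RV V K D N (fun m => En K T m.toFinset m.toFinset) (fun m => EC_dl K T m)
    (EC_dl_nonneg K T) ?_).trans ?_
  · intro l₁ l₂ _
    refine EC_En_le_dl K T (l₁ ++ l₂) _ ?_
    intro z hz
    rw [List.mem_toFinset, List.mem_reverse] at hz
    rw [List.mem_toFinset]
    exact List.mem_append_left _ hz
  · refine (Finset.sum_le_sum (fun x _ => RE_W_dl hP T N N le_rfl x)).trans (le_of_eq ?_)
    rw [Finset.sum_const, Finset.card_univ, nsmul_eq_mul]

end Pool.Agent.helper66.FB
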